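import Mathlib

/-!
# G-permutable subgroups: definitions
-/

set_option autoImplicit false

namespace Pool.Agent.GPerm59

open Pointwise

/-- The conjugate `B^x = x⁻¹ B x` of a subgroup. -/
def conj {G : Type*} [Group G] (B : Subgroup G) (x : G) : Subgroup G :=
  B.map (MulAut.conj x⁻¹).toMonoidHom

/-- `A` is `G`-permutable: for every subgroup `B` of `G` there is `x` in `G` with `A B^x = B^x A`. -/
def GPermutable {G : Type*} [Group G] (A : Subgroup G) : Prop :=
  ∀ B : Subgroup G, ∃ x : G,
    (A : Set G) * (conj B x : Set G) = (conj B x : Set G) * (A : Set G)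

end Pool.Agent.GPerm59
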