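import Mathlib
import Pool.Agent.GPerm59.Defs

set_option autoImplicit false

namespace Pool.Agent.GPerm59

open Pointwise

section basics

variable {G : Type*} [Group G]

theorem mem_conj {B : Subgroup G} {x y : G} : y ∈ conj B x ↔ x * y * x⁻¹ ∈ B := by
  unfold conj
  constructor
  · rintro ⟨b, hb, rfl⟩
    simpa [mul_assoc] using hb
  · intro h
    refine ⟨x * y * x⁻¹, h, ?_⟩
    simp [mul_assoc]

theorem conj_mem {B : Subgroup G} {x b : G} (hb : b ∈ B) : x⁻¹ * b * x ∈ conj B x := by
  rw [mem_conj]; simpa [mul_assoc] using hb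

theorem conj_conj (B : Subgroup G) (x y : G) : conj (conj B x) y = conj B (x * y) := by
  ext z; simp only [mem_conj, mul_inv_rev, mul_assoc]

@[simp] theorem conj_one (B : Subgroup G) : conj B 1 = B := by
  ext z; simp [mem_conj]

theorem conj_mono {B C : Subgroup G} (h : B ≤ C) (x : G) : conj B x ≤ conj C x := by
  intro z hz; rw [mem_conj] at hz ⊢; exact h hz

theorem conj_le_iff {B C : Subgroup G} {x : G} : conj B x ≤ C ↔ B ≤ conj C x⁻¹ := by
  constructor
  · intro h
    have := conj_mono h x⁻¹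
    rwa [conj_conj, mul_inv_cancel, conj_one] at this
  · intro h
    have := conj_mono h x
    rwa [conj_conj, inv_mul_cancel, conj_one] at this

theorem conj_eq_self {B : Subgroup G} {x : G} (hx : x ∈ B) : conj B x = B := by
  ext z
  rw [mem_conj]
  constructor
  · intro h
    have := B.mul_mem (B.mul_mem (B.inv_mem hx) h) hx
    simpa [mul_assoc] using this
  · intro h
    exact B.mul_mem (B.mul_mem hx h) (B.inv_mem hx)

theorem conj_le_self {B C : Subgroup G} {x : G} (h : B ≤ C) (hx : x ∈ C) : conj B x ≤ C := by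
  have := conj_mono h x
  rwa [conj_eq_self hx] at this

theorem card_conj (B : Subgroup G) (x : G) : Nat.card (conj B x) = Nat.card B := by
  unfold conj
  exact Nat.card_congr
    (B.equivMapOfInjective _ (MulAut.conj x⁻¹).injective).toEquiv.symm

theorem conj_top (x : G) : conj (⊤ : Subgroup G) x = ⊤ := by
  ext z; simp [mem_conj]

theorem conj_bot (x : G) : conj (⊥ : Subgroup G) x = ⊥ := by
  ext z
  rw [mem_conj, Subgroup.mem_bot, Subgroup.mem_bot]
  constructor
  · intro h
    have : x⁻¹ * (x * z * x⁻¹) * x = x⁻¹ * 1 * x := by rw [h]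
    simpa [mul_assoc] using this
  · rintro rfl; simp

/-- every element is a product `a * b` -/
def Cov (A B : Subgroup G) : Prop := ∀ g : G, ∃ a ∈ A, ∃ b ∈ B, g = a * b

theorem cov_iff {A B : Subgroup G} : (A : Set G) * (B : Set G) = Set.univ ↔ Cov A B := by
  rw [Set.eq_univ_iff_forall]
  constructor
  · intro h g
    obtain ⟨a, ha, b, hb, e⟩ := Set.mem_mul.1 (h g)
    exact ⟨a, ha, b, hb, e.symm⟩
  · intro h g
    obtain ⟨a, ha, b, hb, e⟩ := h g
    exact Set.mem_mul.2 ⟨a, ha, b, hb, e.symm⟩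

theorem Cov.symm {A B : Subgroup G} (h : Cov A B) : Cov B A := by
  intro g
  obtain ⟨a, ha, b, hb, e⟩ := h g⁻¹
  refine ⟨b⁻¹, B.inv_mem hb, a⁻¹, A.inv_mem ha, ?_⟩
  rw [← mul_inv_rev, ← e, inv_inv]

theorem Cov.mono {A B A' B' : Subgroup G} (h : Cov A B) (hA : A ≤ A') (hB : B ≤ B') :
    Cov A' B' := by
  intro g
  obtain ⟨a, ha, b, hb, e⟩ := h g
  exact ⟨a, hA ha, b, hB hb, e⟩

theorem Cov.conj {A B : Subgroup G} (h : Cov A B) (x : G) : Cov A (conj B x) := by
  intro g
  obtain ⟨b1, hb1, a1, ha1, e1⟩ := h.symm x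
  obtain ⟨a2, ha2, b2, hb2, e2⟩ := h (g * a1⁻¹)
  refine ⟨a2 * a1, A.mul_mem ha2 ha1, a1⁻¹ * b2 * a1, ?_, ?_⟩
  · rw [mem_conj, e1]
    have : b1 * a1 * (a1⁻¹ * b2 * a1) * (b1 * a1)⁻¹ = b1 * b2 * b1⁻¹ := by group
    rw [this]
    exact B.mul_mem (B.mul_mem hb1 hb2) (B.inv_mem hb1)
  · have : g = (a2 * b2) * a1 := by rw [← e2]; group
    rw [this]; group

/-- elementwise form of `A B = B A` -/
theorem perm_iff {A B : Subgroup G} :
    (A : Set G) * (B : Set G) = (B : Set G) * (A : Set G) ↔
      ∀ a ∈ A, ∀ b ∈ B, ∃ b' ∈ B, ∃ a' ∈ A, a * b = b' * a' := by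
  constructor
  · intro h a ha b hb
    have : a * b ∈ (B : Set G) * (A : Set G) := by
      rw [← h]; exact Set.mul_mem_mul ha hb
    obtain ⟨b', hb', a', ha', e⟩ := Set.mem_mul.1 this
    exact ⟨b', hb', a', ha', e.symm⟩
  · intro h
    apply Set.Subset.antisymm
    · rintro z hz
      obtain ⟨a, ha, b, hb, e⟩ := Set.mem_mul.1 hz
      obtain ⟨b', hb', a', ha', e'⟩ := h a ha b hb
      exact Set.mem_mul.2 ⟨b', hb', a', ha', by rw [← e', e]⟩
    · rintro z hz
      obtain ⟨b, hb, a, ha, e⟩ := Set.mem_mul.1 hz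
      obtain ⟨b', hb', a', ha', e'⟩ := h a⁻¹ (A.inv_mem ha) b⁻¹ (B.inv_mem hb)
      refine Set.mem_mul.2 ⟨a'⁻¹, A.inv_mem ha', b'⁻¹, B.inv_mem hb', ?_⟩
      rw [← mul_inv_rev, ← e', ← e]; group

/-- the product subgroup of two permuting subgroups -/
def prod (A B : Subgroup G)
    (h : (A : Set G) * (B : Set G) = (B : Set G) * (A : Set G)) : Subgroup G where
  carrier := (A : Set G) * (B : Set G)
  mul_mem' := by
    intro x y hx hy
    obtain ⟨a, ha, b, hb, e⟩ := Set.mem_mul.1 hx
    obtain ⟨a2, ha2, b2, hb2, e2⟩ := Set.mem_mul.1 hy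
    have : b * a2 ∈ (A : Set G) * (B : Set G) := by
      rw [h]; exact Set.mul_mem_mul hb ha2
    obtain ⟨a3, ha3, b3, hb3, e3⟩ := Set.mem_mul.1 this
    refine Set.mem_mul.2 ⟨a * a3, A.mul_mem ha ha3, b3 * b2, B.mul_mem hb3 hb2, ?_⟩
    rw [← e, ← e2]
    calc a * a3 * (b3 * b2) = a * (a3 * b3) * b2 := by group
      _ = a * (b * a2) * b2 := by rw [e3]
      _ = a * b * (a2 * b2) := by group
  one_mem' := Set.mem_mul.2 ⟨1, A.one_mem, 1, B.one_mem, by simp⟩
  inv_mem' := by
    intro x hx
    obtain ⟨a, ha, b, hb, e⟩ := Set.mem_mul.1 hx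
    rw [h]
    exact Set.mem_mul.2 ⟨b⁻¹, B.inv_mem hb, a⁻¹, A.inv_mem ha, by rw [← e]; group⟩

theorem mem_prod {A B : Subgroup G} (h : (A : Set G) * (B : Set G) = (B : Set G) * (A : Set G))
    {x : G} : x ∈ prod A B h ↔ ∃ a ∈ A, ∃ b ∈ B, x = a * b := by
  change x ∈ (A : Set G) * (B : Set G) ↔ _
  constructor
  · intro hx
    obtain ⟨a, ha, b, hb, e⟩ := Set.mem_mul.1 hx
    exact ⟨a, ha, b, hb, e.symm⟩
  · rintro ⟨a, ha, b, hb, e⟩
    exact Set.mem_mul.2 ⟨a, ha, b, hb, e.symm⟩

theorem left_le_prod {A B : Subgroup G}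
    (h : (A : Set G) * (B : Set G) = (B : Set G) * (A : Set G)) : A ≤ prod A B h := fun a ha =>
  (mem_prod h).2 ⟨a, ha, 1, B.one_mem, by simp⟩

theorem right_le_prod {A B : Subgroup G}
    (h : (A : Set G) * (B : Set G) = (B : Set G) * (A : Set G)) : B ≤ prod A B h := fun b hb =>
  (mem_prod h).2 ⟨1, A.one_mem, b, hb, by simp⟩

theorem cov_of_prod_eq_top {A B : Subgroup G}
    (h : (A : Set G) * (B : Set G) = (B : Set G) * (A : Set G)) (e : prod A B h = ⊤) :
    Cov A B := by
  intro g
  exact (mem_prod h).1 (e ▸ Subgroup.mem_top g)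

/-- If `G = AB` and `A` is `G`-permutable then for `D ≤ B` a `B`-conjugate of `D` permutes
with `A`. -/
theorem perm_in_supplement {A B D : Subgroup G} (hA : GPermutable A) (hAB : Cov A B) :
    ∃ b ∈ B, (A : Set G) * (conj D b : Set G) = (conj D b : Set G) * (A : Set G) := by
  obtain ⟨x, hx⟩ := hA D
  obtain ⟨b, hb, a, ha, e⟩ := hAB.symm x
  refine ⟨b, hb, ?_⟩
  rw [perm_iff] at hx ⊢
  intro a1 ha1 d hd
  -- d ∈ D^b, a⁻¹ d a ∈ D^x
  have hd' : a⁻¹ * d * a ∈ conj D x := by
    rw [e, ← conj_conj]; exact conj_mem hd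
  obtain ⟨d', hd', a', ha', e'⟩ :=
    hx (a⁻¹ * a1 * a) (A.mul_mem (A.mul_mem (A.inv_mem ha) ha1) ha) _ hd'
  refine ⟨a * d' * a⁻¹, ?_, a * a' * a⁻¹, A.mul_mem (A.mul_mem ha ha') (A.inv_mem ha), ?_⟩
  · rw [e, ← conj_conj, mem_conj] at hd'; exact hd'
  · have h1 : a1 * d = a * (a⁻¹ * a1 * a * (a⁻¹ * d * a)) * a⁻¹ := by group
    rw [h1, e']; group

theorem conj_proper {B D : Subgroup G} {b : G} (hb : b ∈ B) (h : D < B) : conj D b < B := by
  refine lt_of_le_of_ne (conj_le_self h.le hb) ?_
  intro e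
  have : D = B := by
    have h2 : conj (conj D b) b⁻¹ = conj B b⁻¹ := by rw [e]
    rwa [conj_conj, mul_inv_cancel, conj_one, conj_eq_self (B.inv_mem hb)] at h2
  exact h.ne this

/-- In a simple group a proper subgroup `H` contains no subgroup `D ≠ 1` all of whose
conjugates lie in `H`. -/
theorem eq_bot_of_conj_le [IsSimpleGroup G] {H D : Subgroup G} (hH : H ≠ ⊤)
    (h : ∀ g, conj D g ≤ H) : D = ⊥ := by
  have hle : D ≤ H.normalCore := by
    intro d hd
    change ∀ g : G, g * d * g⁻¹ ∈ H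
    intro g
    have := h g⁻¹ (conj_mem hd)
    simpa using this
  have hb : H.normalCore = ⊥ := by
    rcases (Subgroup.normalCore_normal H).eq_bot_or_eq_top with h1 | h1
    · exact h1
    · exact absurd (top_le_iff.1 (h1 ▸ Subgroup.normalCore_le H)) hH
  exact le_bot_iff.1 (hb ▸ hle)

end basics



section primeindex

variable {G : Type*} [Group G]

theorem dichotomy {A : Subgroup G} (hA : GPermutable A) (hp : A.index.Prime)
    (D : Subgroup G) : (∃ x, D ≤ conj A x) ∨ Cov A D := by
  obtain ⟨x, hx⟩ := hA D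
  have hAH : A ≤ prod A (conj D x) hx := left_le_prod hx
  have h1 : A.relIndex (prod A (conj D x) hx) * (prod A (conj D x) hx).index = A.index :=
    Subgroup.relIndex_mul_index hAH
  rcases (Nat.dvd_prime hp).1 (Dvd.intro_left _ h1) with h2 | h2
  · right
    have h3 := Subgroup.index_eq_one.1 h2
    have hc := (cov_of_prod_eq_top hx h3).conj x⁻¹
    rwa [conj_conj, mul_inv_cancel, conj_one] at hc
  · left
    have h3 : A.relIndex (prod A (conj D x) hx) = 1 := by
      rw [h2] at h1
      exact Nat.eq_of_mul_eq_mul_right hp.pos (by rw [h1, one_mul])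
    have h4 := Subgroup.relIndex_eq_one.1 h3
    exact ⟨x⁻¹, conj_le_iff.1 ((right_le_prod hx).trans h4)⟩

/-- the normalizer, written with `conj` -/
def nrm (Q : Subgroup G) : Subgroup G where
  carrier := {g | conj Q g = Q}
  mul_mem' := by
    intro a b ha hb
    change conj Q (a * b) = Q
    rw [← conj_conj, show conj Q a = Q from ha, show conj Q b = Q from hb]
  one_mem' := conj_one Q
  inv_mem' := by
    intro a ha
    change conj Q a⁻¹ = Q
    have h : conj Q a = Q := ha
    calc conj Q a⁻¹ = conj (conj Q a) a⁻¹ := by rw [h]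
      _ = Q := by rw [conj_conj, mul_inv_cancel, conj_one]

theorem mem_nrm {Q : Subgroup G} {g : G} : g ∈ nrm Q ↔ conj Q g = Q := Iff.rfl

theorem le_nrm (Q : Subgroup G) : Q ≤ nrm Q := fun _ hg => conj_eq_self hg

/-- normalizer condition for a `q`-subgroup -/
theorem exists_normalizing [Finite G] {q : ℕ} [Fact q.Prime] {Q0 Q1 : Subgroup G}
    (hQ1 : IsPGroup q Q1) (h : Q0 < Q1) : ∃ g ∈ Q1, g ∉ Q0 ∧ g ∈ nrm Q0 := by
  have hnil := hQ1.isNilpotent
  have hnc := Group.normalizerCondition_of_isNilpotent (G := Q1)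
  have hlt : Q0.subgroupOf Q1 < ⊤ := by
    rw [lt_top_iff_ne_top]
    intro e
    have : Q1 ≤ Q0 := Subgroup.subgroupOf_eq_top.1 e
    exact absurd this (not_le_of_gt h)
  obtain ⟨g, hg, hg'⟩ := SetLike.exists_of_lt (hnc _ hlt)
  rw [Subgroup.mem_normalizer_iff] at hg
  refine ⟨g, g.2, ?_, ?_⟩
  · intro h1; exact hg' (Subgroup.mem_subgroupOf.2 h1)
  · rw [mem_nrm]
    ext z
    rw [mem_conj]
    constructor
    · intro hz
      have hz1 : (g : G) * z * (g : G)⁻¹ ∈ Q1 := h.le hz
      have hz2 : z ∈ Q1 := by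
        have := Q1.mul_mem (Q1.mul_mem (Q1.inv_mem g.2) hz1) g.2
        simpa [mul_assoc] using this
      have := (hg ⟨z, hz2⟩).2 (by
        rw [Subgroup.mem_subgroupOf]; simpa using hz)
      rwa [Subgroup.mem_subgroupOf] at this
    · intro hz
      have := (hg ⟨z, h.le hz⟩).1 (by
        rw [Subgroup.mem_subgroupOf]; exact hz)
      rw [Subgroup.mem_subgroupOf] at this
      simpa using this

/-- If every subgroup is contained in a conjugate of `A` or supplements `A`, then two different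
conjugates of `A` meet trivially. -/
theorem inter_eq_bot [Finite G] [IsSimpleGroup G] {A : Subgroup G} (hAt : A ≠ ⊤)
    (hd : ∀ D : Subgroup G, (∃ x, D ≤ conj A x) ∨ Cov A D) {x y : G}
    (hxy : conj A x ≠ conj A y) : conj A x ⊓ conj A y = ⊥ := by
  by_contra hI
  have hcard : Nat.card (conj A x ⊓ conj A y : Subgroup G) ≠ 1 := by
    intro h; exact hI (Subgroup.card_eq_one.1 h)
  obtain ⟨q, hq, hqd⟩ := Nat.exists_prime_and_dvd hcard
  have : Fact q.Prime := ⟨hq⟩
  obtain ⟨g, hg⟩ := exists_prime_orderOf_dvd_card' q hqd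
  -- the family
  let P : Subgroup G → Prop := fun Q => IsPGroup q Q ∧ Q ≠ ⊥ ∧
    ∃ x y, conj A x ≠ conj A y ∧ Q ≤ conj A x ∧ Q ≤ conj A y
  have hne : ∃ Q, P Q := by
    refine ⟨Subgroup.zpowers (g : G), ?_, ?_, x, y, hxy, ?_, ?_⟩
    · have hg' : orderOf (g : G) = q := by rw [Subgroup.orderOf_coe]; exact hg
      apply IsPGroup.of_card (n := 1)
      rw [Nat.card_zpowers, hg', pow_one]
    · rw [Ne, Subgroup.zpowers_eq_bot]
      intro h
      have : orderOf (g : G) = 1 := by rw [h, orderOf_one]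
      rw [Subgroup.orderOf_coe, hg] at this
      exact hq.one_lt.ne' this
    · rw [Subgroup.zpowers_le]; exact (Subgroup.mem_inf.1 g.2).1
    · rw [Subgroup.zpowers_le]; exact (Subgroup.mem_inf.1 g.2).2
  obtain ⟨Q0, hQ0⟩ := Set.Finite.exists_maximal (Set.toFinite {Q | P Q}) hne
  obtain ⟨⟨hQp, hQb, x, y, hxy, hQx, hQy⟩, hmax⟩ := hQ0
  have hmax' : ∀ R : Subgroup G, P R → Q0 ≤ R → R ≤ Q0 := fun R hR h => hmax hR h
  rcases hd (nrm Q0) with ⟨z, hz⟩ | hc
  · -- the normalizer lies in a conjugate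
    obtain ⟨w, hw, hQw⟩ : ∃ w, conj A w ≠ conj A z ∧ Q0 ≤ conj A w := by
      by_cases h : conj A x = conj A z
      · exact ⟨y, fun h2 => hxy (h.trans h2.symm), hQy⟩
      · exact ⟨x, h, hQx⟩
    have hQz : Q0 ≤ conj A z := (le_nrm Q0).trans hz
    have hpW : IsPGroup q (Q0.subgroupOf (conj A w)) := hQp.comap_subtype
    obtain ⟨PW, hPW⟩ := hpW.exists_le_sylow
    set Q1 : Subgroup G := (PW : Subgroup (conj A w)).map (conj A w).subtype with hQ1
    have hQ1p : IsPGroup q Q1 := PW.isPGroup'.map _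
    have hQ1w : Q1 ≤ conj A w := Subgroup.map_subtype_le _
    have hQ01 : Q0 ≤ Q1 := by
      intro t ht
      exact ⟨⟨t, hQw ht⟩, hPW (Subgroup.mem_subgroupOf.2 ht), rfl⟩
    have heq : Q0 = Q1 := by
      by_contra hne
      obtain ⟨g, hg1, hg2, hg3⟩ := exists_normalizing hQ1p (lt_of_le_of_ne hQ01 hne)
      apply hg2
      apply hmax' (Q1 ⊓ nrm Q0) ⟨hQ1p.to_le inf_le_left, ?_, w, z, hw, inf_le_left.trans hQ1w,
        inf_le_right.trans hz⟩ (le_inf hQ01 (le_nrm Q0)) (Subgroup.mem_inf.2 ⟨hg1, hg3⟩)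
      intro h
      apply hQb
      rw [eq_bot_iff, ← h]
      exact le_inf hQ01 (le_nrm Q0)
    have hcard0 : Nat.card Q0 = q ^ (Nat.card (conj A z)).factorization q := by
      rw [heq, hQ1, card_conj A z, ← card_conj A w, ← PW.card_eq_multiplicity]
      exact (Nat.card_congr ((PW : Subgroup (conj A w)).equivMapOfInjective _
        (Subgroup.subtype_injective _)).toEquiv).symm
    have hcz : ∀ R : Subgroup G, R ≤ conj A z →
        Nat.card (R.subgroupOf (conj A z)) = Nat.card R := by
      intro R hR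
      exact Nat.card_congr (Subgroup.subgroupOfEquivOfLe hR).toEquiv
    -- the two Sylow subgroups
    set g := w⁻¹ * z with hg
    have hg' : conj (conj A w) g = conj A z := by rw [conj_conj, hg]; simp
    have hQgz : conj Q0 g ≤ conj A z := hg' ▸ conj_mono hQw g
    have c1 : Nat.card (Q0.subgroupOf (conj A z)) =
        q ^ (Nat.card (conj A z)).factorization q := by rw [hcz _ hQz, hcard0]
    have c2 : Nat.card ((conj Q0 g).subgroupOf (conj A z)) =
        q ^ (Nat.card (conj A z)).factorization q := by rw [hcz _ hQgz, card_conj, hcard0]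
    obtain ⟨h, hh⟩ := MulAction.exists_smul_eq (conj A z)
      (Sylow.ofCard _ c2) (Sylow.ofCard _ c1)
    have hh2 : ∀ t : conj A z, t ∈ (conj Q0 g).subgroupOf (conj A z) →
        h * t * h⁻¹ ∈ Q0.subgroupOf (conj A z) := by
      intro t ht
      have h1 : h * t * h⁻¹ ∈ (h • Sylow.ofCard _ c2 : Sylow q (conj A z)) := by
        have : (h * t * h⁻¹) = MulAut.conj h • t := rfl
        rw [this]
        exact Subgroup.smul_mem_pointwise_smul t (MulAut.conj h) _ ht
      rw [hh] at h1
      exact h1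
    have hle : conj (conj Q0 g) (h : G)⁻¹ ≤ Q0 := by
      intro t ht
      rw [mem_conj, inv_inv] at ht
      have h3 : (h : G)⁻¹ * t * (h : G) ∈ conj A z := hQgz ht
      have h4 := hh2 ⟨_, h3⟩ (Subgroup.mem_subgroupOf.2 ht)
      rw [Subgroup.mem_subgroupOf] at h4
      simpa [mul_assoc] using h4
    have hmem : g * (h : G)⁻¹ ∈ nrm Q0 := by
      rw [mem_nrm, ← conj_conj]
      apply Subgroup.eq_of_le_of_card_ge hle
      rw [card_conj, card_conj]
    have hgz : g ∈ conj A z := by
      have := (conj A z).mul_mem (hz hmem) h.2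
      simpa using this
    apply hw
    calc conj A w = conj (conj A z) g⁻¹ := by rw [← hg', conj_conj, mul_inv_cancel, conj_one]
      _ = conj A z := conj_eq_self ((conj A z).inv_mem hgz)
  · -- the normalizer supplements `A`
    apply hQb
    obtain ⟨a1, ha1, n1, hn1, e1⟩ := hc x
    have hQA : Q0 ≤ A := by
      rw [e1, ← conj_conj, conj_eq_self ha1] at hQx
      have h1 : conj Q0 n1⁻¹ ≤ A := by rw [conj_le_iff, inv_inv]; exact hQx
      rwa [show conj Q0 n1⁻¹ = Q0 from (nrm Q0).inv_mem hn1] at h1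
    refine eq_bot_of_conj_le hAt ?_
    intro g
    obtain ⟨a, ha, n, hn, e⟩ := hc g⁻¹
    have e' : g = n⁻¹ * a⁻¹ := by rw [← mul_inv_rev, ← e, inv_inv]
    rw [e', ← conj_conj, show conj Q0 n⁻¹ = Q0 from (nrm Q0).inv_mem hn]
    exact conj_le_self hQA (A.inv_mem ha)

/-- A finite nonabelian simple group has no `G`-permutable subgroup of prime index. -/
theorem no_prime_index [Finite G] [IsSimpleGroup G] (hG : ∃ a b : G, a * b ≠ b * a)
    {A : Subgroup G} (hA : GPermutable A) (hp : A.index.Prime) : False := by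
  classical
  set p := A.index with hpdef
  have hpf : Fact p.Prime := ⟨hp⟩
  have hd : ∀ D : Subgroup G, (∃ x, D ≤ conj A x) ∨ Cov A D := fun D => dichotomy hA hp D
  have hAt : A ≠ ⊤ := by
    rintro h
    rw [hpdef, Subgroup.index_eq_one.2 h] at hp
    exact Nat.not_prime_one hp
  have hcG : Nat.card A * p = Nat.card G := A.card_mul_index
  have hAb : A ≠ ⊥ := by
    rintro h
    have h1 : Nat.card G = p := by rw [← hcG, h, Subgroup.card_bot, one_mul]
    have hcyc : IsCyclic G := isCyclic_of_prime_card h1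
    obtain ⟨a, b, hab⟩ := hG
    exact hab ((IsCyclic.isMulCommutative (α := G)).is_comm.comm a b)
  -- self-normalizing
  have hself : ∀ x ∉ A, conj A x ≠ A := by
    intro x hx hxA
    have hle : A ≤ nrm A := le_nrm A
    have h1 : A.relIndex (nrm A) * (nrm A).index = A.index := Subgroup.relIndex_mul_index hle
    rcases (Nat.dvd_prime hp).1 (Dvd.intro_left _ h1) with h2 | h2
    · have h3 := Subgroup.index_eq_one.1 h2
      apply hAb
      refine eq_bot_of_conj_le hAt ?_
      intro g
      have : g ∈ nrm A := h3 ▸ Subgroup.mem_top g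
      exact (mem_nrm.1 this).le
    · have h3 : A.relIndex (nrm A) = 1 := by
        rw [h2, ← hpdef] at h1
        exact Nat.eq_of_mul_eq_mul_right hp.pos (by rw [h1, one_mul])
      exact hx (Subgroup.relIndex_eq_one.1 h3 hxA)
  obtain ⟨x, hx⟩ : ∃ x, x ∉ A := by
    by_contra h
    push Not at h
    exact hAt ((Subgroup.eq_top_iff' A).2 h)
  have hx' : x⁻¹ ∉ A := fun h => hx (by simpa using A.inv_mem h)
  have hint : A ⊓ conj A x⁻¹ = ⊥ := by
    have := inter_eq_bot hAt hd (x := 1) (y := x⁻¹) (by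
      rw [conj_one]; exact fun h => hself _ hx' h.symm)
    rwa [conj_one] at this
  -- counting
  have hlt : Nat.card A < p := by
    let f : A × A → {g : G // g ∉ A} := fun ab => ⟨ab.1 * x * ab.2, fun h => by
      apply hx
      have := A.mul_mem (A.mul_mem (A.inv_mem ab.1.2) h) (A.inv_mem ab.2.2)
      simpa [mul_assoc] using this⟩
    have hf : Function.Injective f := by
      rintro ⟨a, b⟩ ⟨a', b'⟩ h
      have h1 : (a : G) * x * b = a' * x * b' := congrArg Subtype.val h
      have h2 : (a' : G)⁻¹ * a = x * (b' * (b : G)⁻¹) * x⁻¹ := by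
        have : (a' : G)⁻¹ * a = (a' : G)⁻¹ * (a * x * b) * (b : G)⁻¹ * x⁻¹ := by group
        rw [this, h1]; group
      have h3 : (a' : G)⁻¹ * a ∈ A ⊓ conj A x⁻¹ := by
        refine Subgroup.mem_inf.2 ⟨A.mul_mem (A.inv_mem a'.2) a.2, ?_⟩
        rw [mem_conj, h2]
        have : x⁻¹ * (x * (b' * (b : G)⁻¹) * x⁻¹) * x⁻¹⁻¹ = b' * (b : G)⁻¹ := by group
        rw [this]
        exact A.mul_mem b'.2 (A.inv_mem b.2)
      rw [hint, Subgroup.mem_bot] at h3
      have h4 : (a : G) = a' := by
        have := congrArg (fun t => (a' : G) * t) h3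
        simpa using this
      have h5 : (b : G) = b' := by
        rw [h4] at h1
        exact mul_left_cancel h1
      exact Prod.ext (Subtype.ext h4) (Subtype.ext h5)
    have h1 := Nat.card_le_card_of_injective f hf
    rw [Nat.card_prod] at h1
    have h2 : Nat.card A + Nat.card {g : G // g ∉ A} = Nat.card G := by
      have := Nat.card_congr (Equiv.sumCompl (fun g : G => g ∈ A))
      rw [Nat.card_sum] at this
      exact this
    have hpos : 0 < Nat.card A := Nat.card_pos
    by_contra hge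
    push Not at hge
    have : Nat.card A * p ≤ Nat.card A * Nat.card A := Nat.mul_le_mul_left _ hge
    omega
  -- Sylow `p`-subgroup is normal
  let P : Sylow p G := default
  have hnd : ¬ p ∣ (P : Subgroup G).index := P.not_dvd_index
  have hidx : (P : Subgroup G).index ∣ Nat.card A := by
    have h1 : (P : Subgroup G).index ∣ Nat.card A * p := by
      rw [hcG]; exact Subgroup.index_dvd_card _
    have hcop : Nat.Coprime (P : Subgroup G).index p :=
      ((Nat.Prime.coprime_iff_not_dvd hp).2 hnd).symm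
    exact hcop.dvd_of_dvd_mul_right h1
  have hn1 : Nat.card (Sylow p G) = 1 := by
    have h1 : Nat.card (Sylow p G) ∣ Nat.card A := P.card_dvd_index.trans hidx
    have h2 : Nat.card (Sylow p G) ≤ Nat.card A := Nat.le_of_dvd Nat.card_pos h1
    have h3 : Nat.card (Sylow p G) ≡ 1 [MOD p] := card_sylow_modEq_one p G
    have h4 : Nat.card (Sylow p G) < p := lt_of_le_of_lt h2 hlt
    exact Nat.ModEq.eq_of_lt_of_lt h3 h4 hp.one_lt
  have hsub : Subsingleton (Sylow p G) := (Nat.card_eq_one_iff_unique.1 hn1).1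
  have hnorm : (P : Subgroup G).Normal := P.normal_of_subsingleton
  rcases hnorm.eq_bot_or_eq_top with h | h
  · apply hnd
    rw [h, Subgroup.index_bot, ← hcG]
    exact Dvd.intro_left _ rfl
  · have hPG : IsPGroup p G := by
      have := P.isPGroup'
      rw [h] at this
      exact IsPGroup.of_surjective this (Subgroup.topEquiv (G := G)).toMonoidHom
        (Subgroup.topEquiv (G := G)).surjective
    have hAp : IsPGroup p A := hPG.to_subgroup A
    obtain ⟨k, hk⟩ := IsPGroup.iff_card.1 hAp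
    rcases Nat.eq_zero_or_pos k with hk0 | hk0
    · rw [hk0, pow_zero] at hk
      exact hAb (Subgroup.card_eq_one.1 hk)
    · have : p ≤ p ^ k := Nat.le_self_pow hk0.ne' p
      omega

end primeindex

section kegel

variable {G : Type*} [Group G]

theorem perm_conj {A B : Subgroup G}
    (h : (A : Set G) * (B : Set G) = (B : Set G) * (A : Set G)) (z : G) :
    (conj A z : Set G) * (conj B z : Set G) = (conj B z : Set G) * (conj A z : Set G) := by
  rw [perm_iff] at h ⊢
  intro a ha b hb
  rw [mem_conj] at ha hb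
  obtain ⟨b', hb', a', ha', e⟩ := h _ ha _ hb
  refine ⟨z⁻¹ * b' * z, conj_mem hb', z⁻¹ * a' * z, conj_mem ha', ?_⟩
  have h1 : a * b = z⁻¹ * (z * a * z⁻¹ * (z * b * z⁻¹)) * z := by group
  rw [h1, e]; group

theorem perm_sup {X Y C : Subgroup G}
    (hX : (X : Set G) * (C : Set G) = (C : Set G) * (X : Set G))
    (hY : (Y : Set G) * (C : Set G) = (C : Set G) * (Y : Set G)) :
    ((X ⊔ Y : Subgroup G) : Set G) * (C : Set G) = (C : Set G) * ((X ⊔ Y : Subgroup G) : Set G) := by
  rw [perm_iff] at hX hY ⊢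
  intro a ha
  have key : ∀ x ∈ (X : Set G) ∪ (Y : Set G), ∀ c ∈ C, ∃ c' ∈ C, ∃ a' ∈ X ⊔ Y,
      x * c = c' * a' := by
    rintro x (hx | hx) c hc
    · obtain ⟨c', hc', a', ha', e⟩ := hX x hx c hc
      exact ⟨c', hc', a', (le_sup_left : X ≤ X ⊔ Y) ha', e⟩
    · obtain ⟨c', hc', a', ha', e⟩ := hY x hx c hc
      exact ⟨c', hc', a', (le_sup_right : Y ≤ X ⊔ Y) ha', e⟩
  have hcl : a ∈ Subgroup.closure ((X : Set G) ∪ (Y : Set G)) := by
    rwa [← Subgroup.sup_eq_closure]
  induction hcl using Subgroup.closure_induction'' with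
  | mem x hx => exact key x hx
  | inv_mem x hx =>
    apply key
    rcases hx with hx | hx
    · exact Or.inl (X.inv_mem hx)
    · exact Or.inr (Y.inv_mem hx)
  | one => intro c hc; exact ⟨c, hc, 1, Subgroup.one_mem _, by simp⟩
  | mul x y hx hy ihx ihy =>
    intro c hc
    rw [← Subgroup.sup_eq_closure] at hx hy
    obtain ⟨c', hc', a', ha', e⟩ := ihy hy c hc
    obtain ⟨c'', hc'', a'', ha'', e'⟩ := ihx hx c' hc'
    refine ⟨c'', hc'', a'' * a', Subgroup.mul_mem _ ha'' ha', ?_⟩
    calc x * y * c = x * (y * c) := by group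
      _ = x * c' * a' := by rw [e]; group
      _ = c'' * (a'' * a') := by rw [e']; group

/-- Kegel's criterion in a simple group. -/
theorem kegel [Finite G] [IsSimpleGroup G] {A B : Subgroup G} (hA : A ≠ ⊥) (hB : B ≠ ⊥)
    (h : ∀ g, (A : Set G) * (conj B g : Set G) = (conj B g : Set G) * (A : Set G)) :
    Cov A B := by
  by_contra hc
  let P : Subgroup G → Prop := fun X =>
    (∀ g, (X : Set G) * (conj B g : Set G) = (conj B g : Set G) * (X : Set G)) ∧
      ¬ Cov X B ∧ A ≤ X
  obtain ⟨X, ⟨hXp, hXc, hAX⟩, hmax⟩ :=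
    Set.Finite.exists_maximal (Set.toFinite {X | P X}) ⟨A, h, hc, le_rfl⟩
  have hmax' : ∀ Y : Subgroup G, P Y → X ≤ Y → Y ≤ X := fun Y hY hXY => hmax hY hXY
  have hn : ∀ g, conj B g ≤ nrm X := by
    intro g b hb
    have hle : conj X b ≤ X := by
      refine le_trans le_sup_right (hmax' (X ⊔ conj X b) ⟨?_, ?_, ?_⟩ le_sup_left)
      · intro g'
        apply perm_sup (hXp g')
        have := perm_conj (hXp (g' * b⁻¹)) b
        rwa [conj_conj, inv_mul_cancel_right] at this
      · intro hcov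
        apply hXc
        have h1 : prod X (conj B g) (hXp g) = ⊤ := by
          rw [eq_top_iff]
          intro z _
          obtain ⟨x, hx, c, hc, e⟩ := hcov.conj g z
          rw [e]
          refine Subgroup.mul_mem _ ?_ (right_le_prod (hXp g) hc)
          refine (sup_le (left_le_prod (hXp g)) ?_ : X ⊔ conj X b ≤ _) hx
          exact conj_le_self (left_le_prod (hXp g)) (right_le_prod (hXp g) hb)
        have h2 := (cov_of_prod_eq_top (hXp g) h1).conj g⁻¹
        rwa [conj_conj, mul_inv_cancel, conj_one] at h2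
      · exact hAX.trans le_sup_left
    rw [mem_nrm]
    exact Subgroup.eq_of_le_of_card_ge hle (card_conj X b).ge
  have hnt : nrm X = ⊤ := by
    by_contra hne
    exact hB (eq_bot_of_conj_le hne hn)
  have hXt : X ≠ ⊤ := by
    rintro rfl
    apply hXc
    intro g
    exact ⟨g, Subgroup.mem_top g, 1, B.one_mem, by simp⟩
  have hXb : X = ⊥ := by
    refine eq_bot_of_conj_le hXt ?_
    intro g
    have : g ∈ nrm X := hnt ▸ Subgroup.mem_top g
    exact (mem_nrm.1 this).le
  exact hA (le_bot_iff.1 (hXb ▸ hAX))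

/-- If `G = AB` with `A ≠ 1` a `G`-permutable subgroup and `R ≠ 1` is a subgroup normalized by
`B`, then `G = AR`. -/
theorem cov_of_normalized [Finite G] [IsSimpleGroup G] {A B R : Subgroup G}
    (hA : GPermutable A) (hA1 : A ≠ ⊥) (hAB : Cov A B) (hR : R ≠ ⊥)
    (hBR : ∀ b ∈ B, conj R b = R) : Cov A R := by
  apply kegel hA1 hR
  intro g
  obtain ⟨b, hb, hp⟩ := perm_in_supplement (D := R) hA hAB
  rw [hBR b hb] at hp
  obtain ⟨b', hb', a, ha, e⟩ := hAB.symm g
  have h1 := perm_conj hp a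
  rwa [conj_eq_self ha, ← hBR b' hb', conj_conj, ← e] at h1

/-- A `G`-permutable proper subgroup of a nonabelian simple group has no supplement of prime
order. -/
theorem no_prime_supplement [Finite G] [IsSimpleGroup G] (hG : ∃ a b : G, a * b ≠ b * a)
    {A S : Subgroup G} (hA : GPermutable A) (hAt : A ≠ ⊤) (hS : (Nat.card S).Prime)
    (hAS : Cov A S) : False := by
  have hinf : A ⊓ S = ⊥ := by
    have h1 : Nat.card (A ⊓ S : Subgroup G) ∣ Nat.card S :=
      Subgroup.card_dvd_of_le inf_le_right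
    rcases (Nat.dvd_prime hS).1 h1 with h2 | h2
    · exact Subgroup.card_eq_one.1 h2
    · exfalso
      have h3 : A ⊓ S = S := Subgroup.eq_of_le_of_card_ge inf_le_right h2.ge
      have h4 : S ≤ A := inf_eq_right.1 h3
      apply hAt
      rw [eq_top_iff]
      intro g _
      obtain ⟨a, ha, b, hb, e⟩ := hAS g
      rw [e]; exact A.mul_mem ha (h4 hb)
  have hidx : A.index = Nat.card S := by
    have h2 : Nat.card G = Nat.card A * Nat.card S := by
      have hb : Function.Bijective (fun ab : A × S => (ab.1 : G) * ab.2) := by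
        constructor
        · rintro ⟨a, b⟩ ⟨a', b'⟩ h
          have h1 : (a : G) * b = a' * b' := h
          have h2 : (a' : G)⁻¹ * a = b' * (b : G)⁻¹ := by
            have : (a' : G)⁻¹ * a = (a' : G)⁻¹ * (a * b) * (b : G)⁻¹ := by group
            rw [this, h1]; group
          have h3 : (a' : G)⁻¹ * a ∈ A ⊓ S :=
            Subgroup.mem_inf.2 ⟨A.mul_mem (A.inv_mem a'.2) a.2, by
              rw [h2]; exact S.mul_mem b'.2 (S.inv_mem b.2)⟩
          rw [hinf, Subgroup.mem_bot] at h3
          have h4 : (a : G) = a' := by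
            have := congrArg (fun t => (a' : G) * t) h3
            simpa using this
          have h5 : (b : G) = b' := by
            rw [h4] at h1
            exact mul_left_cancel h1
          exact Prod.ext (Subtype.ext h4) (Subtype.ext h5)
        · intro g
          obtain ⟨a, ha, b, hb, e⟩ := hAS g
          exact ⟨(⟨a, ha⟩, ⟨b, hb⟩), e.symm⟩
      rw [← Nat.card_congr (Equiv.ofBijective _ hb), Nat.card_prod]
    have h3 := A.card_mul_index
    rw [h2] at h3
    exact Nat.eq_of_mul_eq_mul_left Nat.card_pos h3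
  exact no_prime_index hG hA (hidx ▸ hS)

/-- every nontrivial subgroup of a finite group contains a subgroup of prime order -/
theorem exists_prime_le [Finite G] {C : Subgroup G} (hC : C ≠ ⊥) :
    ∃ D ≤ C, (Nat.card D).Prime := by
  have h1 : Nat.card C ≠ 1 := fun h => hC (Subgroup.card_eq_one.1 h)
  obtain ⟨q, hq, hqd⟩ := Nat.exists_prime_and_dvd h1
  have : Fact q.Prime := ⟨hq⟩
  obtain ⟨g, hg⟩ := exists_prime_orderOf_dvd_card' q hqd
  refine ⟨Subgroup.zpowers (g : G), ?_, ?_⟩
  · rw [Subgroup.zpowers_le]; exact g.2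
  · rw [Nat.card_zpowers, Subgroup.orderOf_coe, hg]; exact hq

theorem ne_bot_of_prime {D : Subgroup G} (h : (Nat.card D).Prime) : D ≠ ⊥ := by
  rintro rfl
  rw [Subgroup.card_bot] at h
  exact Nat.not_prime_one h

/-- If `G = AB` with `A` a `G`-permutable subgroup, `A ≠ 1` and `A ≠ G`, then `C_G(B) = 1`. -/
theorem centralizer_eq_bot [Finite G] [IsSimpleGroup G] (hG : ∃ a b : G, a * b ≠ b * a)
    {A B : Subgroup G} (hA : GPermutable A) (hA1 : A ≠ ⊥) (hAt : A ≠ ⊤) (hAB : Cov A B)
    (C : Subgroup G) (hC : ∀ b ∈ B, ∀ c ∈ C, b * c = c * b) : C = ⊥ := by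
  by_contra hne
  obtain ⟨D, hDC, hD⟩ := exists_prime_le hne
  refine no_prime_supplement hG hA hAt hD
    (cov_of_normalized hA hA1 hAB (ne_bot_of_prime hD) ?_)
  intro b hb
  ext z
  rw [mem_conj]
  constructor
  · intro hz
    have h1 := hC b hb _ (hDC hz)
    have h2 : z = b * z * b⁻¹ := by
      have h3 : b⁻¹ * (b * (b * z * b⁻¹)) = b⁻¹ * (b * z * b⁻¹ * b) := by rw [h1]
      have h4 : b⁻¹ * (b * (b * z * b⁻¹)) = b * z * b⁻¹ := by group
      have h5 : b⁻¹ * (b * z * b⁻¹ * b) = z := by group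
      rw [h4, h5] at h3
      exact h3.symm
    rw [h2]; exact hz
  · intro hz
    have h1 := hC b hb z (hDC hz)
    rw [h1, mul_inv_cancel_right]
    exact hz

theorem conj_inf (T U : Subgroup G) (x : G) : conj (T ⊓ U) x = conj T x ⊓ conj U x := by
  ext z; simp only [mem_conj, Subgroup.mem_inf]

/-- A supplement of a `G`-permutable subgroup `A`, `1 ≠ A ≠ G`, of a nonabelian simple group `G`
is almost simple, and its socle is a supplement. -/
theorem almost_simple [Finite G] [IsSimpleGroup G] (hG : ∃ a b : G, a * b ≠ b * a)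
    {A B : Subgroup G} (hA : GPermutable A) (hA1 : A ≠ ⊥) (hAt : A ≠ ⊤) (hAB : Cov A B) :
    ∃ S ≤ B, (∀ b ∈ B, conj S b = S) ∧ IsSimpleGroup S ∧ (∃ s t : S, s * t ≠ t * s) ∧
      (∀ C : Subgroup G, (∀ s ∈ S, ∀ c ∈ C, s * c = c * s) → C = ⊥) ∧ Cov A S := by
  have hB : B ≠ ⊥ := by
    rintro rfl
    apply hAt
    rw [eq_top_iff]
    intro g _
    obtain ⟨a, ha, b, hb, e⟩ := hAB g
    rw [Subgroup.mem_bot] at hb
    rw [e, hb, mul_one]; exact ha
  obtain ⟨R, ⟨hR1, hRB, hRn⟩, hRmin⟩ := Set.Finite.exists_minimal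
    (Set.toFinite {R : Subgroup G | R ≠ ⊥ ∧ R ≤ B ∧ ∀ b ∈ B, conj R b = R})
    ⟨B, hB, le_rfl, fun b hb => conj_eq_self hb⟩
  have hRmin' : ∀ T : Subgroup G, T ≠ ⊥ → T ≤ B → (∀ b ∈ B, conj T b = T) → T ≤ R → R ≤ T :=
    fun T h1 h2 h3 h4 => hRmin ⟨h1, h2, h3⟩ h4
  have hAR : Cov A R := cov_of_normalized hA hA1 hAB hR1 hRn
  obtain ⟨T, ⟨hT1, hTR, hTn⟩, hTmin⟩ := Set.Finite.exists_minimal
    (Set.toFinite {T : Subgroup G | T ≠ ⊥ ∧ T ≤ R ∧ ∀ b ∈ R, conj T b = T})
    ⟨R, hR1, le_rfl, fun b hb => conj_eq_self hb⟩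
  have hTmin' : ∀ U : Subgroup G, U ≠ ⊥ → U ≤ R → (∀ b ∈ R, conj U b = U) → U ≤ T → T ≤ U :=
    fun U h1 h2 h3 h4 => hTmin ⟨h1, h2, h3⟩ h4
  have hAT : Cov A T := cov_of_normalized hA hA1 hAR hT1 hTn
  have hTB : ∀ b ∈ B, conj T b = T := by
    intro b hb
    by_contra hne
    set U := conj T b with hU
    have hUR : U ≤ R := by
      have := conj_mono hTR b
      rwa [hRn b hb] at this
    have hUn : ∀ r ∈ R, conj U r = U := by
      intro r hr
      have h1 : b * r * b⁻¹ ∈ R := by
        have h2 : r ∈ conj R b := by rw [hRn b hb]; exact hr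
        exact mem_conj.1 h2
      have h2 : b * r = b * r * b⁻¹ * b := by group
      rw [hU, conj_conj, h2, ← conj_conj, hTn _ h1]
    have hinf : T ⊓ U = ⊥ := by
      by_contra h1
      have h2 : T ≤ T ⊓ U := hTmin' (T ⊓ U) h1 (inf_le_left.trans hTR)
        (fun r hr => by rw [conj_inf, hTn r hr, hUn r hr]) inf_le_left
      apply hne
      have h3 : T ≤ U := h2.trans inf_le_right
      exact (Subgroup.eq_of_le_of_card_ge h3 (by rw [hU, card_conj])).symm
    have hUb : U = ⊥ := by
      refine centralizer_eq_bot hG hA hA1 hAt hAT U ?_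
      intro t ht u hu
      have h1 : t⁻¹ * u⁻¹ * t * u ∈ T ⊓ U := by
        refine Subgroup.mem_inf.2 ⟨?_, ?_⟩
        · have h2 : u⁻¹ * t * u ∈ T := by
            have := conj_mem (x := u) ht
            rwa [hTn u (hUR hu)] at this
          have := T.mul_mem (T.inv_mem ht) h2
          simpa [mul_assoc] using this
        · have h2 : t⁻¹ * u⁻¹ * t ∈ U := by
            have := conj_mem (x := t) (U.inv_mem hu)
            rwa [hUn t (hTR ht)] at this
          exact U.mul_mem h2 hu
      rw [hinf, Subgroup.mem_bot] at h1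
      have h2 : u * t * (t⁻¹ * u⁻¹ * t * u) = t * u := by group
      rw [← h2, h1, mul_one]
    apply hT1
    have : Nat.card T = 1 := by
      rw [← card_conj T b, ← hU, hUb, Subgroup.card_bot]
    exact Subgroup.card_eq_one.1 this
  have hRT : R = T := le_antisymm (hRmin' T hT1 (hTR.trans hRB) hTB hTR) hTR
  subst hRT
  have hnt : Nontrivial R := (Subgroup.nontrivial_iff_ne_bot R).2 hR1
  have hsimp : IsSimpleGroup R := by
    refine ⟨fun K hK => ?_⟩
    by_cases hKb : K = ⊥
    · exact Or.inl hKb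
    right
    have h1 : K.map R.subtype ≠ ⊥ := by
      intro h
      apply hKb
      exact (Subgroup.map_eq_bot_iff_of_injective K (Subgroup.subtype_injective R)).1 h
    have h2 : K.map R.subtype ≤ R := Subgroup.map_subtype_le K
    have h3 : R ≤ K.map R.subtype := by
      refine hTmin' _ h1 h2 ?_ h2
      have hle : ∀ r ∈ R, conj (K.map R.subtype) r ≤ K.map R.subtype := by
        intro r hr z hz
        rw [mem_conj, Subgroup.mem_map] at hz
        obtain ⟨y, hy, e⟩ := hz
        have h4 := hK.conj_mem _ hy ⟨r, hr⟩⁻¹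
        refine ⟨_, h4, ?_⟩
        have e' : (y : G) = r * z * r⁻¹ := e
        simp [e', mul_assoc]
      intro r hr
      refine le_antisymm (hle r hr) ?_
      have := conj_mono (hle r⁻¹ (R.inv_mem hr)) r
      rwa [conj_conj, inv_mul_cancel, conj_one] at this
    rw [eq_top_iff]
    intro x _
    obtain ⟨y, hy, e⟩ := h3 x.2
    have : y = x := Subtype.ext e
    exact this ▸ hy
  refine ⟨R, hRB, hRn, hsimp, ?_, ?_, hAR⟩
  · by_contra hcomm
    push Not at hcomm
    let _ : CommGroup R := { (inferInstance : Group R) with mul_comm := hcomm }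
    have hprime : (Nat.card R).Prime := IsSimpleGroup.prime_card
    exact no_prime_supplement hG hA hAt hprime hAR
  · intro C hC
    exact centralizer_eq_bot hG hA hA1 hAt hAR C hC

end kegel

section final

variable {G : Type*} [Group G]

/-- `A ∩ S` is `S`-permutable if `G = AS`. -/
theorem permutable_inter {A S : Subgroup G} (hA : GPermutable A) (hAS : Cov A S) :
    GPermutable (A.subgroupOf S) := by
  intro D
  obtain ⟨b, hb, hp⟩ := perm_in_supplement (D := D.map S.subtype) hA hAS
  refine ⟨⟨b, hb⟩, ?_⟩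
  have hmem : ∀ x : S, (x : G) ∈ conj (D.map S.subtype) b ↔ x ∈ conj D ⟨b, hb⟩ := by
    intro x
    rw [mem_conj, mem_conj, Subgroup.mem_map]
    constructor
    · rintro ⟨y, hy, e⟩
      have : y = ⟨b, hb⟩ * x * (⟨b, hb⟩ : S)⁻¹ := Subtype.ext (by simpa using e)
      exact this ▸ hy
    · intro hx
      exact ⟨_, hx, by simp⟩
  have hS : conj (D.map S.subtype) b ≤ S := conj_le_self (Subgroup.map_subtype_le D) hb
  rw [perm_iff] at hp ⊢
  intro a ha d hd
  obtain ⟨d', hd', a', ha', e⟩ := hp a (Subgroup.mem_subgroupOf.1 ha) d ((hmem d).2 hd)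
  have hd'S : d' ∈ S := hS hd'
  have ha'S : a' ∈ S := by
    have : a' = d'⁻¹ * (a * d : G) := by rw [e]; group
    rw [this]
    exact S.mul_mem (S.inv_mem hd'S) (S.mul_mem a.2 d.2)
  refine ⟨⟨d', hd'S⟩, (hmem _).1 hd', ⟨a', ha'S⟩, Subgroup.mem_subgroupOf.2 ha', ?_⟩
  exact Subtype.ext e


/-- the embedding of `A_n` in `A_{n+1}` -/
def altEmb (n : ℕ) : alternatingGroup (Fin n) →* alternatingGroup (Fin (n + 1)) :=
  ((Equiv.Perm.extendDomainHom (finSuccAboveEquiv (Fin.last n))).comp
    (alternatingGroup (Fin n)).subtype).codRestrict (alternatingGroup (Fin (n + 1))) (by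
      intro x
      rw [Equiv.Perm.mem_alternatingGroup]
      change Equiv.Perm.sign ((x : Equiv.Perm (Fin n)).extendDomain _) = 1
      rw [Equiv.Perm.sign_extendDomain]
      exact Equiv.Perm.mem_alternatingGroup.1 x.2)

theorem altEmb_injective (n : ℕ) : Function.Injective (altEmb n) := by
  intro x y h
  have h1 : Equiv.Perm.extendDomainHom (finSuccAboveEquiv (Fin.last n)) (x : Equiv.Perm (Fin n)) =
      Equiv.Perm.extendDomainHom (finSuccAboveEquiv (Fin.last n)) (y : Equiv.Perm (Fin n)) :=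
    congrArg Subtype.val h
  exact Subtype.ext (Equiv.Perm.extendDomainHom_injective _ h1)

theorem card_alt {n : ℕ} (hn : 2 ≤ n) : 2 * Nat.card (alternatingGroup (Fin n)) = n.factorial := by
  have : Nontrivial (Fin n) := Fin.nontrivial_iff_two_le.2 hn
  have h1 := two_mul_nat_card_alternatingGroup (α := Fin n)
  rwa [Nat.card_perm, Nat.card_fin] at h1

theorem card_alt_small {n : ℕ} (hn : n ≤ 2) : Nat.card (alternatingGroup (Fin n)) = 1 := by
  rcases Nat.lt_or_ge n 2 with h2 | h2
  · have : Subsingleton (Fin n) := by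
      rw [Fin.subsingleton_iff_le_one]; omega
    exact Nat.card_unique
  · have h3 : n = 2 := le_antisymm hn h2
    subst h3
    have := card_alt (le_refl 2)
    simpa using this

/-- If `C ≤ S` is not a supplement of the `G`-permutable subgroup `A` but `S` is, then `G` has a
proper subgroup `H ≥ A` whose index divides `|S : C|`; in particular `|G|` divides `|S : C|!`. -/
theorem card_dvd_factorial [Finite G] [IsSimpleGroup G] {A S C : Subgroup G}
    (hA : GPermutable A) (hAS : Cov A S) (hCS : C ≤ S) (hC : ¬ Cov A C) :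
    Nat.card G ∣ (C.relIndex S).factorial := by
  obtain ⟨b, hb, hp⟩ := perm_in_supplement (D := C) hA hAS
  have hDb : conj C b ≤ S := conj_le_self hCS hb
  have hHt : prod A (conj C b) hp ≠ ⊤ := by
    intro h
    apply hC
    have := (cov_of_prod_eq_top hp h).conj b⁻¹
    rwa [conj_conj, mul_inv_cancel, conj_one] at this
  set H := prod A (conj C b) hp with hH
  have hSpos : 0 < S.index := Nat.pos_of_ne_zero S.index_ne_zero_of_finite
  have hDbrel : (conj C b).relIndex S = C.relIndex S := by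
    have h1 : C.relIndex S * S.index = C.index := Subgroup.relIndex_mul_index hCS
    have h2 : (conj C b).relIndex S * S.index = (conj C b).index :=
      Subgroup.relIndex_mul_index hDb
    have h3 : C.index = (conj C b).index := by
      have h4 := C.card_mul_index
      have h5 := (conj C b).card_mul_index
      rw [card_conj, ← h4] at h5
      exact (Nat.eq_of_mul_eq_mul_left Nat.card_pos h5).symm
    rw [h3, ← h2] at h1
    exact (Nat.eq_of_mul_eq_mul_right hSpos h1).symm
  have hHidx : H.index ∣ C.relIndex S := by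
    have htr : MulAction.IsPretransitive S (G ⧸ H) := by
      constructor
      have key : ∀ y : G ⧸ H, ∃ s : S, s • ((1 : G) : G ⧸ H) = y := by
        intro y
        obtain ⟨g, rfl⟩ := QuotientGroup.mk_surjective y
        obtain ⟨s, hs, a, ha, eg⟩ := hAS.symm g
        refine ⟨⟨s, hs⟩, ?_⟩
        change ((s * 1 : G) : G ⧸ H) = (g : G ⧸ H)
        rw [QuotientGroup.eq, eg]
        have : (s * 1)⁻¹ * (s * a) = a := by group
        rw [this]
        exact left_le_prod hp ha
      intro x y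
      obtain ⟨s, hs⟩ := key x
      obtain ⟨t, ht⟩ := key y
      refine ⟨t * s⁻¹, ?_⟩
      rw [← hs, mul_smul, inv_smul_smul, ht]
    have h1 : (MulAction.stabilizer S ((1 : G) : G ⧸ H)).index = H.index := by
      rw [MulAction.index_stabilizer_of_transitive]; rfl
    have h2 : (conj C b).subgroupOf S ≤ MulAction.stabilizer S ((1 : G) : G ⧸ H) := by
      intro s hs
      rw [MulAction.mem_stabilizer_iff]
      change (((s : G) * 1 : G) : G ⧸ H) = ((1 : G) : G ⧸ H)
      rw [QuotientGroup.eq]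
      have : ((s : G) * 1)⁻¹ * 1 = (s : G)⁻¹ := by group
      rw [this]
      exact H.inv_mem (right_le_prod hp (Subgroup.mem_subgroupOf.1 hs))
    have h3 := Subgroup.index_dvd_of_le h2
    rw [h1] at h3
    rw [← hDbrel]
    exact h3
  have hcore : H.normalCore = ⊥ := by
    rcases (Subgroup.normalCore_normal H).eq_bot_or_eq_top with h1 | h1
    · exact h1
    · exact absurd (top_le_iff.1 (h1 ▸ Subgroup.normalCore_le H)) hHt
  have hinj : Function.Injective (MulAction.toPermHom G (G ⧸ H)) := by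
    rw [← MonoidHom.ker_eq_bot_iff, ← Subgroup.normalCore_eq_ker, hcore]
  have h1 := Subgroup.card_dvd_of_injective _ hinj
  have h2 : Nat.card (Equiv.Perm (G ⧸ H)) = (H.index).factorial := by
    rw [Nat.card_perm]; rfl
  rw [h2] at h1
  have hpos : 0 < C.relIndex S :=
    Nat.pos_of_ne_zero (C.subgroupOf S).index_ne_zero_of_finite
  exact h1.trans (Nat.factorial_dvd_factorial (Nat.le_of_dvd hpos hHidx))

/-- A proper supplement is not isomorphic to an alternating group. -/
theorem not_alternating [Finite G] [IsSimpleGroup G] {A : Subgroup G} (hA : GPermutable A)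
    (hAt : A ≠ ⊤) (n : ℕ) : ∀ S : Subgroup G, S ≠ ⊤ → Cov A S →
      (S ≃* alternatingGroup (Fin n)) → False := by
  induction n with
  | zero =>
    intro S _ hAS e
    have h1 : Nat.card S = 1 := by rw [Nat.card_congr e.toEquiv, card_alt_small (by omega)]
    have h2 : S = ⊥ := Subgroup.card_eq_one.1 h1
    subst h2
    apply hAt
    rw [eq_top_iff]
    intro g _
    obtain ⟨a, ha, b, hb, e⟩ := hAS g
    rw [Subgroup.mem_bot] at hb
    rw [e, hb, mul_one]; exact ha
  | succ n ih =>
    intro S hSt hAS e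
    rcases Nat.lt_or_ge 2 (n + 1) with hn | hn
    swap
    · have h1 : Nat.card S = 1 := by rw [Nat.card_congr e.toEquiv, card_alt_small hn]
      have h2 : S = ⊥ := Subgroup.card_eq_one.1 h1
      subst h2
      apply hAt
      rw [eq_top_iff]
      intro g _
      obtain ⟨a, ha, b, hb, e⟩ := hAS g
      rw [Subgroup.mem_bot] at hb
      rw [e, hb, mul_one]; exact ha
    let f : alternatingGroup (Fin n) →* G :=
      S.subtype.comp (e.symm.toMonoidHom.comp (altEmb n))
    have hf : Function.Injective f :=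
      (Subgroup.subtype_injective S).comp (e.symm.injective.comp (altEmb_injective n))
    set C : Subgroup G := f.range with hCdef
    have hCS : C ≤ S := by
      rintro _ ⟨x, rfl⟩
      exact (e.symm (altEmb n x)).2
    have eC : C ≃* alternatingGroup (Fin n) := (MonoidHom.ofInjective hf).symm
    have hcardC : 2 * Nat.card C = n.factorial := by
      rw [Nat.card_congr eC.toEquiv, card_alt (by omega)]
    have hcardS : 2 * Nat.card S = (n + 1).factorial := by
      rw [Nat.card_congr e.toEquiv, card_alt (by omega)]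
    have hrel : C.relIndex S = n + 1 := by
      have h1 : Nat.card C * C.relIndex S = Nat.card S := by
        rw [Subgroup.relIndex, ← Nat.card_congr (Subgroup.subgroupOfEquivOfLe hCS).toEquiv]
        exact Subgroup.card_mul_index _
      rw [Nat.factorial_succ, ← hcardC, ← h1] at hcardS
      have hpos : 0 < 2 * Nat.card C := Nat.mul_pos (by norm_num) Nat.card_pos
      apply Nat.eq_of_mul_eq_mul_left hpos
      rw [mul_assoc, hcardS, mul_comm]
    have hCt : C ≠ ⊤ := fun h => hSt (top_le_iff.1 (h ▸ hCS))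
    have hC : ¬ Cov A C := fun h => ih C hCt h eC
    have hdvd := card_dvd_factorial hA hAS hCS hC
    rw [hrel, ← hcardS] at hdvd
    have hle := Nat.le_of_dvd (Nat.mul_pos (by norm_num) Nat.card_pos) hdvd
    have h2 : S.index ≤ 2 := by
      have h3 : Nat.card S * S.index = Nat.card G := S.card_mul_index
      rw [← h3, mul_comm 2] at hle
      exact Nat.le_of_mul_le_mul_left hle Nat.card_pos
    have h0 : S.index ≠ 0 := S.index_ne_zero_of_finite
    have h1 : S.index ≠ 1 := fun h => hSt (Subgroup.index_eq_one.1 h)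
    have h3 : S.index = 2 := by omega
    have hSn : S.Normal := Subgroup.normal_of_index_eq_two h3
    rcases hSn.eq_bot_or_eq_top with h4 | h4
    · have h5 : Nat.card S = 1 := by rw [h4]; exact Subgroup.card_bot
      rw [h5] at hcardS
      have : (3 : ℕ).factorial ≤ (n + 1).factorial := Nat.factorial_le hn
      simp only [Nat.factorial] at this hcardS
      omega
    · exact hSt h4

end final

section primeorder

variable {G : Type*} [Group G]

/-- the order of a product of two subgroups meeting trivially -/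
theorem card_of_bij [Finite G] {A S K : Subgroup G} (hAK : A ≤ K) (hSK : S ≤ K)
    (hinf : A ⊓ S = ⊥) (hcov : ∀ k ∈ K, ∃ a ∈ A, ∃ s ∈ S, k = a * s) :
    Nat.card K = Nat.card A * Nat.card S := by
  have hb : Function.Bijective (fun ab : A × S =>
      (⟨(ab.1 : G) * ab.2, K.mul_mem (hAK ab.1.2) (hSK ab.2.2)⟩ : K)) := by
    constructor
    · rintro ⟨a, b⟩ ⟨a', b'⟩ h
      have h1 : (a : G) * b = a' * b' := congrArg Subtype.val h
      have h2 : (a' : G)⁻¹ * a = b' * (b : G)⁻¹ := by
        have : (a' : G)⁻¹ * a = (a' : G)⁻¹ * (a * b) * (b : G)⁻¹ := by group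
        rw [this, h1]; group
      have h3 : (a' : G)⁻¹ * a ∈ A ⊓ S :=
        Subgroup.mem_inf.2 ⟨A.mul_mem (A.inv_mem a'.2) a.2, by
          rw [h2]; exact S.mul_mem b'.2 (S.inv_mem b.2)⟩
      rw [hinf, Subgroup.mem_bot] at h3
      have h4 : (a : G) = a' := by
        have := congrArg (fun t => (a' : G) * t) h3
        simpa using this
      have h5 : (b : G) = b' := by
        rw [h4] at h1
        exact mul_left_cancel h1
      exact Prod.ext (Subtype.ext h4) (Subtype.ext h5)
    · rintro ⟨k, hk⟩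
      obtain ⟨a, ha, b, hb, e⟩ := hcov k hk
      exact ⟨(⟨a, ha⟩, ⟨b, hb⟩), Subtype.ext e.symm⟩
  rw [← Nat.card_congr (Equiv.ofBijective _ hb), Nat.card_prod]

/-- two subgroups of coprime orders meet trivially -/
theorem inf_eq_bot_of_coprime [Finite G] {A S : Subgroup G}
    (h : (Nat.card A).Coprime (Nat.card S)) : A ⊓ S = ⊥ := by
  apply Subgroup.card_eq_one.1
  have h1 : Nat.card (A ⊓ S : Subgroup G) ∣ Nat.card A := Subgroup.card_dvd_of_le inf_le_left
  have h2 : Nat.card (A ⊓ S : Subgroup G) ∣ Nat.card S := Subgroup.card_dvd_of_le inf_le_right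
  exact Nat.eq_one_of_dvd_coprimes h h1 h2

/-- two subgroups meeting trivially inside a group of order the product of their orders -/
theorem cov_of_card [Finite G] {A S K : Subgroup G} (hAK : A ≤ K) (hSK : S ≤ K)
    (hinf : A ⊓ S = ⊥) (hcard : Nat.card K ≤ Nat.card A * Nat.card S) :
    ∀ k ∈ K, ∃ a ∈ A, ∃ s ∈ S, k = a * s := by
  let f : A × S → K := fun ab => ⟨(ab.1 : G) * ab.2, K.mul_mem (hAK ab.1.2) (hSK ab.2.2)⟩
  have hf : Function.Injective f := by
    rintro ⟨a, b⟩ ⟨a', b'⟩ h
    have h1 : (a : G) * b = a' * b' := congrArg Subtype.val h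
    have h2 : (a' : G)⁻¹ * a = b' * (b : G)⁻¹ := by
      have : (a' : G)⁻¹ * a = (a' : G)⁻¹ * (a * b) * (b : G)⁻¹ := by group
      rw [this, h1]; group
    have h3 : (a' : G)⁻¹ * a ∈ A ⊓ S :=
      Subgroup.mem_inf.2 ⟨A.mul_mem (A.inv_mem a'.2) a.2, by
        rw [h2]; exact S.mul_mem b'.2 (S.inv_mem b.2)⟩
    rw [hinf, Subgroup.mem_bot] at h3
    have h4 : (a : G) = a' := by
      have := congrArg (fun t => (a' : G) * t) h3
      simpa using this
    have h5 : (b : G) = b' := by
      rw [h4] at h1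
      exact mul_left_cancel h1
    exact Prod.ext (Subtype.ext h4) (Subtype.ext h5)
  have hle := Nat.card_le_card_of_injective f hf
  rw [Nat.card_prod] at hle
  have hbij : Function.Bijective f :=
    (Nat.bijective_iff_injective_and_card f).2 ⟨hf, by rw [Nat.card_prod]; omega⟩
  intro k hk
  obtain ⟨⟨a, b⟩, h⟩ := hbij.2 ⟨k, hk⟩
  exact ⟨a, a.2, b, b.2, (congrArg Subtype.val h).symm⟩

theorem isPGroup_conj {q : ℕ} {Q : Subgroup G} (hQ : IsPGroup q Q) (x : G) :
    IsPGroup q (conj Q x) := hQ.map _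

/-- Let `K = AQ` with `|A| = p` prime and `Q` a `q`-group, `q ≠ p`, such that no nontrivial
subgroup of `Q` has all its `A`-conjugates in `Q`. Then `Q` normalizes `A`. -/
theorem normalizes_of_prime [Finite G] {A Q : Subgroup G} {p q : ℕ} (hp : p.Prime)
    (hq : q.Prime) (hpq : p ≠ q) (hA : Nat.card A = p) (hQ : IsPGroup q Q)
    (hperm : (A : Set G) * (Q : Set G) = (Q : Set G) * (A : Set G))
    (hno : ∀ V : Subgroup G, (∀ a ∈ A, conj V a ≤ Q) → V = ⊥) : Q ≤ nrm A := by
  classical
  have hqf : Fact q.Prime := ⟨hq⟩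
  set K := prod A Q hperm with hKdef
  have hAK : A ≤ K := left_le_prod hperm
  have hQK : Q ≤ K := right_le_prod hperm
  have hcovK : ∀ k ∈ K, ∃ a ∈ A, ∃ y ∈ Q, k = a * y := fun k hk => (mem_prod hperm).1 hk
  obtain ⟨n, hn⟩ := IsPGroup.iff_card.1 hQ
  have hcop : ∀ R : Subgroup G, IsPGroup q R → ∀ B : Subgroup G, Nat.card B = p →
      B ⊓ R = ⊥ := by
    intro R hR B hB
    apply inf_eq_bot_of_coprime
    obtain ⟨m, hm⟩ := IsPGroup.iff_card.1 hR
    rw [hB, hm]
    exact Nat.Coprime.pow_right _ ((Nat.coprime_primes hp hq).2 hpq)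
  have hcK : Nat.card K = p * Nat.card Q := by
    rw [card_of_bij hAK hQK (hcop Q hQ A hA) hcovK, hA]
  have hconjK : ∀ k ∈ K, conj Q k ≤ K := fun k hk => conj_le_self hQK hk
  have hconjq : ∀ k, IsPGroup q (conj Q k) := fun k => isPGroup_conj hQ k
  -- every `q`-subgroup of `K` is in a conjugate of `Q`
  have hsyl : ∀ N : Subgroup G, N ≤ K → IsPGroup q N → ∃ k ∈ K, N ≤ conj Q k := by
    intro N hNK hN
    have hN' : IsPGroup q (N.subgroupOf K) := hN.comap_subtype
    have hidx : Nat.card (K ⧸ (Q.subgroupOf K)) = p := by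
      change (Q.subgroupOf K).index = p
      have h1 : Nat.card (Q.subgroupOf K) = Nat.card Q :=
        Nat.card_congr (Subgroup.subgroupOfEquivOfLe hQK).toEquiv
      have h2 := (Q.subgroupOf K).card_mul_index
      rw [h1, hcK, mul_comm] at h2
      exact Nat.eq_of_mul_eq_mul_right Nat.card_pos h2
    have hnd : ¬ q ∣ Nat.card (K ⧸ (Q.subgroupOf K)) := by
      rw [hidx]
      intro h
      exact hpq ((Nat.prime_dvd_prime_iff_eq hq hp).1 h).symm
    obtain ⟨x, hx⟩ := hN'.nonempty_fixed_point_of_prime_not_dvd_card (K ⧸ (Q.subgroupOf K)) hnd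
    obtain ⟨k, rfl⟩ := QuotientGroup.mk_surjective x
    refine ⟨(k : G)⁻¹, K.inv_mem k.2, ?_⟩
    intro z hz
    have h1 := hx ⟨⟨z, hNK hz⟩, Subgroup.mem_subgroupOf.2 hz⟩
    have h2 : (((⟨z, hNK hz⟩ : K) * k : K) : K ⧸ (Q.subgroupOf K)) = (k : K ⧸ (Q.subgroupOf K)) :=
      h1
    rw [eq_comm, QuotientGroup.eq, Subgroup.mem_subgroupOf] at h2
    rw [mem_conj]
    simpa [mul_assoc] using h2
  -- trivial intersections
  have hTI : ∀ k ∈ K, ∀ l ∈ K, conj Q k ≠ conj Q l → conj Q k ⊓ conj Q l = ⊥ := by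
    intro k hk l hl hkl
    by_contra hI
    let P : Subgroup G → Prop := fun D => D ≠ ⊥ ∧
      ∃ k ∈ K, ∃ l ∈ K, conj Q k ≠ conj Q l ∧ D ≤ conj Q k ∧ D ≤ conj Q l
    obtain ⟨D, ⟨hD1, k, hk, l, hl, hkl, hDk, hDl⟩, hmax⟩ :=
      Set.Finite.exists_maximal (Set.toFinite {D | P D})
        ⟨conj Q k ⊓ conj Q l, hI, k, hk, l, hl, hkl, inf_le_left, inf_le_right⟩
    have hmax' : ∀ R : Subgroup G, P R → D ≤ R → R ≤ D := fun R hR h => hmax hR h
    by_cases hN : IsPGroup q (nrm D ⊓ K : Subgroup G)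
    · obtain ⟨m, hm, hNm⟩ := hsyl _ inf_le_right hN
      have key : ∀ k ∈ K, ∀ l ∈ K, conj Q k ≠ conj Q l → D ≤ conj Q k → D ≤ conj Q l →
          conj Q k = conj Q m := by
        intro k hk l hl hkl hDk hDl
        by_contra hne
        have hlt : D < conj Q k := by
          refine lt_of_le_of_ne hDk ?_
          intro h
          apply hkl
          rw [h] at hDl
          exact Subgroup.eq_of_le_of_card_ge hDl (by rw [card_conj, card_conj])
        obtain ⟨g, hg1, hg2, hg3⟩ := exists_normalizing (hconjq k) hlt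
        apply hg2
        refine hmax' (conj Q k ⊓ nrm D) ⟨?_, k, hk, m, hm, hne, inf_le_left, ?_⟩
          (le_inf hDk (le_nrm D)) (Subgroup.mem_inf.2 ⟨hg1, hg3⟩)
        · intro h
          apply hD1
          rw [eq_bot_iff, ← h]
          exact le_inf hDk (le_nrm D)
        · exact le_trans (le_inf inf_le_right (inf_le_left.trans (hconjK k hk))) hNm
      exact hkl ((key k hk l hl hkl hDk hDl).trans (key l hl k hk hkl.symm hDl hDk).symm)
    · -- an element of order `p` normalizes `D`
      have hpN : p ∣ Nat.card (nrm D ⊓ K : Subgroup G) := by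
        by_contra hnd
        apply hN
        have h1 : Nat.card (nrm D ⊓ K : Subgroup G) ∣ p * Nat.card Q := by
          rw [← hcK]; exact Subgroup.card_dvd_of_le inf_le_right
        have h2 : Nat.card (nrm D ⊓ K : Subgroup G) ∣ Nat.card Q :=
          ((Nat.Prime.coprime_iff_not_dvd hp).2 hnd).symm.dvd_of_dvd_mul_left h1
        rw [hn] at h2
        obtain ⟨m, -, hm⟩ := (Nat.dvd_prime_pow hq).1 h2
        exact IsPGroup.of_card hm
      have hpf : Fact p.Prime := ⟨hp⟩
      obtain ⟨g, hg⟩ := exists_prime_orderOf_dvd_card' p hpN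
      have hg' : orderOf (g : G) = p := by rw [Subgroup.orderOf_coe]; exact hg
      set A1 : Subgroup G := Subgroup.zpowers (g : G) with hA1
      have hA1c : Nat.card A1 = p := by rw [hA1, Nat.card_zpowers, hg']
      have hA1N : A1 ≤ nrm D ⊓ K := by rw [hA1, Subgroup.zpowers_le]; exact g.2
      have hcov1 : ∀ x ∈ K, ∃ a ∈ A1, ∃ y ∈ conj Q k, x = a * y :=
        cov_of_card (hA1N.trans inf_le_right) (hconjK k hk) (hcop _ (hconjq k) _ hA1c)
          (by rw [hA1c, card_conj, hcK])
      have hall : ∀ x ∈ K, conj D x ≤ conj Q k := by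
        intro x hx
        obtain ⟨a, ha, y, hy, e⟩ := hcov1 x hx
        have h1 : conj D a = D := (Subgroup.mem_inf.1 (hA1N ha)).1
        rw [e, ← conj_conj, h1]
        exact conj_le_self hDk hy
      have hall' : ∀ x ∈ K, conj D x ≤ Q := by
        intro x hx
        have h1 := conj_mono (hall (x * k) (K.mul_mem hx hk)) k⁻¹
        rwa [conj_conj, conj_conj, mul_inv_cancel_right, mul_inv_cancel, conj_one] at h1
      exact hD1 (hno D fun a ha => hall' a (hAK ha))
  by_cases hQb : Q = ⊥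
  · rw [hQb]; exact bot_le
  -- no nontrivial element of `A` normalizes `Q`
  have hNQ : ∀ a ∈ A, conj Q a = Q → a = 1 := by
    intro a ha h
    by_contra hne
    apply hQb
    have h1 : A ⊓ nrm Q = A := by
      have h2 : Nat.card (A ⊓ nrm Q : Subgroup G) ∣ Nat.card A :=
        Subgroup.card_dvd_of_le inf_le_left
      rw [hA] at h2
      rcases (Nat.dvd_prime hp).1 h2 with h3 | h3
      · exfalso
        have h4 : a ∈ (A ⊓ nrm Q : Subgroup G) := Subgroup.mem_inf.2 ⟨ha, h⟩
        rw [Subgroup.card_eq_one.1 h3, Subgroup.mem_bot] at h4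
        exact hne h4
      · exact Subgroup.eq_of_le_of_card_ge inf_le_left (by rw [h3, hA])
    apply hno
    intro a' ha'
    have h5 : a' ∈ nrm Q := (inf_eq_left.1 h1) ha'
    exact (mem_nrm.1 h5).le
  intro y hy
  rw [mem_nrm]
  apply Subgroup.eq_of_le_of_card_ge _ (card_conj A y).ge
  intro b hb
  by_contra hbA
  have hyK := hQK hy
  have hbK : b ∈ K := conj_le_self hAK hyK hb
  have hbQ : ∀ a ∈ A, b ∉ conj Q a := by
    intro a _ hba
    have h1 := hcop _ (hconjq a) (conj A y) (by rw [card_conj, hA])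
    have h2 : b ∈ (conj A y ⊓ conj Q a : Subgroup G) := Subgroup.mem_inf.2 ⟨hb, hba⟩
    rw [h1, Subgroup.mem_bot] at h2
    exact hbA (h2 ▸ A.one_mem)
  have hAQ : ∀ a ∈ A, ∀ c ∈ A, c ∈ conj Q a → c = 1 := by
    intro a _ c hc hca
    have h1 := hcop _ (hconjq a) A hA
    have h2 : c ∈ (A ⊓ conj Q a : Subgroup G) := Subgroup.mem_inf.2 ⟨hc, hca⟩
    rwa [h1, Subgroup.mem_bot] at h2
  have hcm : ∀ a u : G, u ∈ Q → a⁻¹ * u * a ∈ conj Q a := fun a u hu => conj_mem hu
  have hcu : ∀ a u : G, a⁻¹ * u * a = 1 → u = 1 := by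
    intro a u h
    have h1 : u = a * (a⁻¹ * u * a) * a⁻¹ := by group
    rw [h1, h]; group
  let f : Option A ⊕ (A × {u : Q // u ≠ 1}) → K := fun s => match s with
    | Sum.inl none => ⟨b, hbK⟩
    | Sum.inl (some a) => ⟨a, hAK a.2⟩
    | Sum.inr (a, u) => ⟨(a : G)⁻¹ * (u.1 : G) * a,
        K.mul_mem (K.mul_mem (K.inv_mem (hAK a.2)) (hQK u.1.2)) (hAK a.2)⟩
  have hf : Function.Injective f := by
    intro s t h
    have hv := congrArg Subtype.val h
    rcases s with (_ | a) | ⟨a, u⟩ <;> rcases t with (_ | a') | ⟨a', u'⟩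
    · rfl
    · exfalso
      have h1 : b = (a' : G) := hv
      exact hbA (h1 ▸ a'.2)
    · exfalso
      have h1 : b = (a' : G)⁻¹ * (u'.1 : G) * a' := hv
      exact hbQ a' a'.2 (h1 ▸ hcm _ _ u'.1.2)
    · exfalso
      have h1 : (a : G) = b := hv
      exact hbA (h1 ▸ a.2)
    · have h1 : (a : G) = a' := hv
      rw [Subtype.ext h1]
    · exfalso
      have h1 : (a : G) = (a' : G)⁻¹ * (u'.1 : G) * a' := hv
      have h2 : (a : G) = 1 := hAQ a' a'.2 a a.2 (h1 ▸ hcm _ _ u'.1.2)
      rw [h2] at h1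
      exact u'.2 (Subtype.ext (hcu _ _ h1.symm))
    · exfalso
      have h1 : (a : G)⁻¹ * (u.1 : G) * a = b := hv
      exact hbQ a a.2 (h1 ▸ hcm _ _ u.1.2)
    · exfalso
      have h1 : (a : G)⁻¹ * (u.1 : G) * a = a' := hv
      have h2 : (a' : G) = 1 := hAQ a a.2 a' a'.2 (h1 ▸ hcm _ _ u.1.2)
      rw [h2] at h1
      exact u.2 (Subtype.ext (hcu _ _ h1))
    · have h1 : (a : G)⁻¹ * (u.1 : G) * a = (a' : G)⁻¹ * (u'.1 : G) * a' := hv
      have h2 : conj Q a = conj Q a' := by
        by_contra hne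
        have h3 := hTI a (hAK a.2) a' (hAK a'.2) hne
        have h4 : (a : G)⁻¹ * (u.1 : G) * a ∈ (conj Q (a : G) ⊓ conj Q (a' : G) : Subgroup G) :=
          Subgroup.mem_inf.2 ⟨hcm _ _ u.1.2, h1 ▸ hcm _ _ u'.1.2⟩
        rw [h3, Subgroup.mem_bot] at h4
        exact u.2 (Subtype.ext (hcu _ _ h4))
      have h3 : conj Q ((a : G) * (a' : G)⁻¹) = Q := by
        rw [← conj_conj, h2, conj_conj, mul_inv_cancel, conj_one]
      have h4 := hNQ _ (A.mul_mem a.2 (A.inv_mem a'.2)) h3
      have h5 : (a : G) = a' := by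
        have := congrArg (fun t => t * (a' : G)) h4
        simpa using this
      have h6 : a = a' := Subtype.ext h5
      subst h6
      have h7 : (u.1 : G) = u'.1 := by
        have := congrArg (fun t => (a : G) * t * (a : G)⁻¹) h1
        simpa [mul_assoc] using this
      have h8 : u = u' := Subtype.ext (Subtype.ext h7)
      rw [h8]
  have hle := Nat.card_le_card_of_injective f hf
  have hopt : Nat.card (Option A) = p + 1 := by rw [Finite.card_option, hA]
  have hu : Nat.card {u : Q // u ≠ 1} + 1 = Nat.card Q := by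
    have h1 := Nat.card_congr (Equiv.sumCompl (fun u : Q => u = 1))
    rw [Nat.card_sum, Nat.card_unique] at h1
    rw [← h1, add_comm]
  rw [Nat.card_sum, Nat.card_prod, hopt, hA, hcK, ← hu, mul_add, mul_one] at hle
  omega

/-- coprime indices give a factorization -/
theorem cov_of_coprime_index [Finite G] {N P : Subgroup G} (h : N.index.Coprime P.index) :
    Cov N P := by
  have h1 : N.index ∣ (N ⊓ P).index := Subgroup.index_dvd_of_le inf_le_left
  have h2 : P.index ∣ (N ⊓ P).index := Subgroup.index_dvd_of_le inf_le_right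
  have h3 : N.index * P.index ∣ (N ⊓ P).index := Nat.Coprime.mul_dvd_of_dvd_of_dvd h h1 h2
  have h4 : (N ⊓ P).relIndex P * P.index = (N ⊓ P).index :=
    Subgroup.relIndex_mul_index inf_le_right
  have hP : 0 < P.index := Nat.pos_of_ne_zero P.index_ne_zero_of_finite
  have h5 : N.index ∣ N.relIndex P := by
    rw [← h4, Subgroup.inf_relIndex_right] at h3
    exact Nat.dvd_of_mul_dvd_mul_right hP h3
  have h6 : N.index ≤ N.relIndex P :=
    Nat.le_of_dvd (Nat.pos_of_ne_zero (N.subgroupOf P).index_ne_zero_of_finite) h5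
  -- the orbit of `N` under `P` is everything
  have h7 : MulAction.stabilizer P ((1 : G) : G ⧸ N) = N.subgroupOf P := by
    ext s
    rw [MulAction.mem_stabilizer_iff, Subgroup.mem_subgroupOf]
    change ((((s : G) * 1 : G) : G ⧸ N) = ((1 : G) : G ⧸ N)) ↔ _
    rw [QuotientGroup.eq, mul_one, mul_one, N.inv_mem_iff]
  have h8 : (MulAction.orbit P ((1 : G) : G ⧸ N)).ncard = N.relIndex P := by
    rw [← MulAction.index_stabilizer, h7]; rfl
  have h9 : MulAction.orbit P ((1 : G) : G ⧸ N) = Set.univ := by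
    apply Set.eq_of_subset_of_ncard_le (Set.subset_univ _)
    rw [h8, Set.ncard_univ]
    exact h6
  have h10 : Cov P N := by
    intro g
    have : ((g : G) : G ⧸ N) ∈ MulAction.orbit P ((1 : G) : G ⧸ N) := h9 ▸ Set.mem_univ _
    obtain ⟨s, hs⟩ := this
    have h11 : (((s : G) * 1 : G) : G ⧸ N) = ((g : G) : G ⧸ N) := hs
    rw [QuotientGroup.eq, mul_one] at h11
    exact ⟨s, s.2, _, h11, by group⟩
  exact h10.symm

/-- A `G`-permutable subgroup of prime order of a nonabelian simple group has no proper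
supplement. -/
theorem no_supplement_of_prime [Finite G] [IsSimpleGroup G] (hG : ∃ a b : G, a * b ≠ b * a)
    {A : Subgroup G} (hA : GPermutable A) (hp : (Nat.card A).Prime) {B : Subgroup G}
    (hB : B ≠ ⊤) (hAB : Cov A B) : False := by
  have hA1 : A ≠ ⊥ := ne_bot_of_prime hp
  have hAt : A ≠ ⊤ := by
    rintro h
    have h1 : (Nat.card G).Prime := by
      rw [h, Nat.card_congr (Subgroup.topEquiv (G := G)).toEquiv] at hp
      exact hp
    have hf : Fact (Nat.card G).Prime := ⟨h1⟩
    have hcyc : IsCyclic G := isCyclic_of_prime_card rfl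
    obtain ⟨a, b, hab⟩ := hG
    exact hab ((IsCyclic.isMulCommutative (α := G)).is_comm.comm a b)
  obtain ⟨S, hSB, -, -, -, -, hAS⟩ := almost_simple hG hA hA1 hAt hAB
  have hSt : S ≠ ⊤ := fun h => hB (top_le_iff.1 (h ▸ hSB))
  set p := Nat.card A with hpdef
  have hinf : A ⊓ S = ⊥ := by
    have h1 : Nat.card (A ⊓ S : Subgroup G) ∣ Nat.card A :=
      Subgroup.card_dvd_of_le inf_le_left
    rcases (Nat.dvd_prime hp).1 h1 with h2 | h2
    · exact Subgroup.card_eq_one.1 h2
    · exfalso
      have h3 : A ⊓ S = A := Subgroup.eq_of_le_of_card_ge inf_le_left h2.ge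
      have h4 : A ≤ S := inf_eq_left.1 h3
      apply hSt
      rw [eq_top_iff]
      intro g _
      obtain ⟨a, ha, b, hb, e⟩ := hAS g
      rw [e]; exact S.mul_mem (h4 ha) hb
  have hcG : Nat.card G = p * Nat.card S := by
    have h1 := card_of_bij (K := ⊤) le_top le_top hinf (fun k _ => hAS k)
    rwa [Nat.card_congr (Subgroup.topEquiv (G := G)).toEquiv] at h1
  have hfact : ∀ V : Subgroup G, (∀ a ∈ A, conj V a ≤ S) → V = ⊥ := by
    intro V hV
    refine eq_bot_of_conj_le hSt ?_
    intro g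
    obtain ⟨a, ha, s, hs, e⟩ := hAS g
    rw [e, ← conj_conj]
    exact conj_le_self (hV a ha) hs
  have hidx : ∀ q : ℕ, q.Prime → q ≠ p → ¬ q ∣ (nrm A).index := by
    intro q hq hqp hdvd
    have hqf : Fact q.Prime := ⟨hq⟩
    let R : Sylow q S := default
    obtain ⟨b, hb, hperm⟩ := perm_in_supplement (D := (R : Subgroup S).map S.subtype) hA hAS
    set Q := conj ((R : Subgroup S).map S.subtype) b with hQ
    have hQS : Q ≤ S := conj_le_self (Subgroup.map_subtype_le _) hb
    have hQq : IsPGroup q Q := isPGroup_conj (R.isPGroup'.map _) b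
    have hQc : Nat.card Q = q ^ (Nat.card S).factorization q := by
      rw [hQ, card_conj, ← R.card_eq_multiplicity]
      exact (Nat.card_congr ((R : Subgroup S).equivMapOfInjective _
        (Subgroup.subtype_injective _)).toEquiv).symm
    have hle : Q ≤ nrm A := normalizes_of_prime hp hq (Ne.symm hqp) rfl hQq hperm
      (fun V hV => hfact V fun a ha => (hV a ha).trans hQS)
    have h1 : q ^ (Nat.card S).factorization q ∣ Nat.card (nrm A) := by
      rw [← hQc]; exact Subgroup.card_dvd_of_le hle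
    have h2 : q ^ ((Nat.card S).factorization q + 1) ∣ p * Nat.card S := by
      rw [← hcG, ← (nrm A).card_mul_index, pow_succ]
      exact Nat.mul_dvd_mul h1 hdvd
    have h3 : q ^ ((Nat.card S).factorization q + 1) ∣ Nat.card S :=
      (Nat.Coprime.pow_left _ ((Nat.coprime_primes hq hp).2 hqp)).dvd_of_dvd_mul_left h2
    exact Nat.pow_succ_factorization_not_dvd Nat.card_pos.ne' hq h3
  have hpf : Fact p.Prime := ⟨hp⟩
  have hAp : IsPGroup p A := IsPGroup.of_card (n := 1) (by rw [pow_one])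
  obtain ⟨P, hP⟩ := hAp.exists_le_sylow
  have hcopr : (nrm A).index.Coprime (P : Subgroup G).index := by
    rw [Nat.coprime_iff_isRelPrime]
    by_contra hnc
    have h1 : ¬ Nat.Coprime (nrm A).index (P : Subgroup G).index := by
      rwa [Nat.coprime_iff_isRelPrime]
    obtain ⟨q, hq, hq1, hq2⟩ := Nat.Prime.not_coprime_iff_dvd.1 h1
    by_cases hqp : q = p
    · rw [hqp] at hq2
      exact P.not_dvd_index hq2
    · exact hidx q hq hqp hq1
  have hcov := cov_of_coprime_index hcopr
  have hall : ∀ g, conj A g ≤ (P : Subgroup G) := by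
    intro g
    obtain ⟨n, hn, y, hy, e⟩ := hcov g
    rw [e, ← conj_conj, show conj A n = A from hn]
    exact conj_le_self hP hy
  by_cases hPt : (P : Subgroup G) = ⊤
  · have hPG : IsPGroup p G := by
      have := P.isPGroup'
      rw [hPt] at this
      exact IsPGroup.of_surjective this (Subgroup.topEquiv (G := G)).toMonoidHom
        (Subgroup.topEquiv (G := G)).surjective
    have h1 := hPG.bot_lt_center
    rcases (inferInstance : (Subgroup.center G).Normal).eq_bot_or_eq_top with h2 | h2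
    · exact h1.ne' h2
    · obtain ⟨a, b, hab⟩ := hG
      have h3 : a ∈ Subgroup.center G := h2 ▸ Subgroup.mem_top a
      exact hab (Subgroup.mem_center_iff.1 h3 b).symm
  · exact hA1 (eq_bot_of_conj_le hPt hall)

end primeorder

end Pool.Agent.GPerm59
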